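import Pool.Agent.helper82.CH.SpecE

/-!
# Project CH (MP_2e0e07_nt), stage 2, row NPR: prime powers
-/

set_option autoImplicit false

open Complex

namespace Pool.Agent.CHE

theorem NPR_g : Summable (fun p : ℕ => Real.log p * (p : ℝ) ^ (-(4 / 3) : ℝ)) := by
  have h1 : Summable (fun p : ℕ => 6 * (p : ℝ) ^ (-(7 / 6) : ℝ)) := (Real.summable_nat_rpow.2 (by norm_num)).mul_left 6
  refine Summable.of_nonneg_of_le (fun p => ?_) (fun p => ?_) h1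
  · exact mul_nonneg (Real.log_natCast_nonneg p) (Real.rpow_nonneg (Nat.cast_nonneg _) _)
  · rcases Nat.eq_zero_or_pos p with rfl | hp
    · simp
    · have hp0 : (0 : ℝ) < p := by exact_mod_cast hp
      have h2 : Real.log p ≤ (p : ℝ) ^ (1 / 6 : ℝ) / (1 / 6) := Real.log_le_rpow_div hp0.le (by norm_num)
      have h3 : (p : ℝ) ^ (-(7 / 6) : ℝ) = (p : ℝ) ^ (1 / 6 : ℝ) * (p : ℝ) ^ (-(4 / 3) : ℝ) := by
        rw [← Real.rpow_add hp0]
        norm_num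
      rw [h3]
      calc Real.log p * (p : ℝ) ^ (-(4 / 3) : ℝ) ≤ (p : ℝ) ^ (1 / 6 : ℝ) / (1 / 6) * (p : ℝ) ^ (-(4 / 3) : ℝ) :=
            mul_le_mul_of_nonneg_right h2 (Real.rpow_nonneg hp0.le _)
        _ = 6 * ((p : ℝ) ^ (1 / 6 : ℝ) * (p : ℝ) ^ (-(4 / 3) : ℝ)) := by ring

theorem NPR_h : Summable (fun i : ℕ => ((2 : ℝ) ^ (-(2 / 3) : ℝ)) ^ (i - 2)) := by
  have h0 : (0 : ℝ) ≤ (2 : ℝ) ^ (-(2 / 3) : ℝ) := Real.rpow_nonneg (by norm_num) _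
  have h1 : (2 : ℝ) ^ (-(2 / 3) : ℝ) < 1 := Real.rpow_lt_one_of_one_lt_of_neg (by norm_num) (by norm_num)
  rw [← summable_nat_add_iff 2]
  simp only [Nat.add_sub_cancel]
  exact summable_geometric_of_lt_one h0 h1

theorem NPR_term {k : ℕ} (hk : IsPrimePow k) (hp : ¬ k.Prime) :
    VM k * (k : ℝ) ^ (-(2 / 3) : ℝ) ≤ (Real.log k.minFac * (k.minFac : ℝ) ^ (-(4 / 3) : ℝ)) *
      ((2 : ℝ) ^ (-(2 / 3) : ℝ)) ^ (k.factorization k.minFac - 2) := by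
  obtain ⟨p, hpk⟩ : ∃ p, p = k.minFac := ⟨_, rfl⟩
  obtain ⟨i, hi⟩ : ∃ i, i = k.factorization k.minFac := ⟨_, rfl⟩
  have hk1 : k ≠ 1 := hk.ne_one
  have hpp : p.Prime := by rw [hpk]; exact Nat.minFac_prime hk1
  have hki : p ^ i = k := by rw [hpk, hi]; exact hk.minFac_pow_factorization_eq
  have hi2 : 2 ≤ i := by
    by_contra hlt
    rw [not_le] at hlt
    interval_cases i
    · rw [pow_zero] at hki
      exact hk1 hki.symm
    · rw [pow_one] at hki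
      exact hp (hki ▸ hpp)
  rw [← hi, ← hpk]
  have hVM : VM k = Real.log p := by
    rw [VM, ArithmeticFunction.vonMangoldt_apply, if_pos hk, hpk]
  have hp2 : (2 : ℝ) ≤ p := by exact_mod_cast hpp.two_le
  have hp0 : (0 : ℝ) < p := by linarith
  rw [hVM, ← hki, mul_assoc]
  refine mul_le_mul_of_nonneg_left ?_ (Real.log_natCast_nonneg p)
  obtain ⟨m, rfl⟩ : ∃ m, i = m + 2 := ⟨i - 2, by omega⟩
  rw [Nat.add_sub_cancel]
  have h1 : (((p ^ (m + 2) : ℕ) : ℝ)) ^ (-(2 / 3) : ℝ) = (p : ℝ) ^ (-(4 / 3) : ℝ) * ((p : ℝ) ^ (-(2 / 3) : ℝ)) ^ m := by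
    rw [Nat.cast_pow, ← Real.rpow_natCast, ← Real.rpow_natCast, ← Real.rpow_mul hp0.le, ← Real.rpow_mul hp0.le, ← Real.rpow_add hp0]
    congr 1
    push_cast
    ring
  rw [h1]
  refine mul_le_mul_of_nonneg_left ?_ (Real.rpow_nonneg hp0.le _)
  exact pow_le_pow_left₀ (Real.rpow_nonneg hp0.le _) (Real.rpow_le_rpow_of_nonpos (by norm_num) hp2 (by norm_num)) m

theorem NPR : NPR_stmt := by
  obtain ⟨F, hF⟩ : ∃ F : ℕ × ℕ → ℝ, F = fun x => (Real.log x.1 * (x.1 : ℝ) ^ (-(4 / 3) : ℝ)) * ((2 : ℝ) ^ (-(2 / 3) : ℝ)) ^ (x.2 - 2) := ⟨_, rfl⟩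
  have hg0 : ∀ p : ℕ, 0 ≤ Real.log p * (p : ℝ) ^ (-(4 / 3) : ℝ) := fun p =>
    mul_nonneg (Real.log_natCast_nonneg p) (Real.rpow_nonneg (Nat.cast_nonneg _) _)
  have hh0 : ∀ i : ℕ, 0 ≤ ((2 : ℝ) ^ (-(2 / 3) : ℝ)) ^ (i - 2) := fun i => pow_nonneg (Real.rpow_nonneg (by norm_num) _) _
  have hsum : Summable F := by
    rw [hF]
    exact Summable.mul_of_nonneg NPR_g NPR_h (fun p => hg0 p) (fun i => hh0 i)
  have hF0 : ∀ x, 0 ≤ F x := fun x => by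
    rw [hF]
    exact mul_nonneg (hg0 _) (hh0 _)
  refine ⟨max 1 (∑' x, F x), le_max_left _ _, fun x S hx hS => ?_⟩
  classical
  have hx0 : 0 < x := by linarith
  have h1 : ∀ k ∈ S, VM k / k ≤ (VM k * (k : ℝ) ^ (-(2 / 3) : ℝ)) * x ^ (-(1 / 3) : ℝ) := by
    intro k hk
    have hk0 : (0 : ℝ) < k := lt_of_lt_of_le hx0 (hS k hk).2
    have h2 : VM k / k = VM k * ((k : ℝ) ^ (-(2 / 3) : ℝ) * (k : ℝ) ^ (-(1 / 3) : ℝ)) := by
      rw [← Real.rpow_add hk0, div_eq_mul_inv, ← Real.rpow_neg_one]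
      norm_num
    rw [h2, mul_assoc]
    refine mul_le_mul_of_nonneg_left ?_ ArithmeticFunction.vonMangoldt_nonneg
    refine mul_le_mul_of_nonneg_left ?_ (Real.rpow_nonneg hk0.le _)
    exact Real.rpow_le_rpow_of_nonpos hx0 (hS k hk).2 (by norm_num)
  have h2 : ∑ k ∈ S, VM k * (k : ℝ) ^ (-(2 / 3) : ℝ) ≤ ∑' x, F x := by
    have h3 : ∑ k ∈ S, VM k * (k : ℝ) ^ (-(2 / 3) : ℝ) = ∑ k ∈ S.filter IsPrimePow, VM k * (k : ℝ) ^ (-(2 / 3) : ℝ) := by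
      rw [Finset.sum_filter_of_ne]
      intro k _ hk
      by_contra hn
      refine hk ?_
      rw [VM, ArithmeticFunction.vonMangoldt_apply, if_neg hn, zero_mul]
    rw [h3]
    have h4 : ∑ k ∈ S.filter IsPrimePow, VM k * (k : ℝ) ^ (-(2 / 3) : ℝ) ≤ ∑ k ∈ S.filter IsPrimePow, F (k.minFac, k.factorization k.minFac) := by
      refine Finset.sum_le_sum (fun k hk => ?_)
      rw [Finset.mem_filter] at hk
      rw [hF]
      exact NPR_term hk.2 (hS k hk.1).1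
    refine h4.trans ?_
    rw [← Finset.sum_image (f := F) (g := fun k : ℕ => (k.minFac, k.factorization k.minFac)) ?_]
    · exact hsum.sum_le_tsum _ (fun x _ => hF0 x)
    · intro a ha b hb hab
      rw [Finset.mem_coe, Finset.mem_filter] at ha hb
      rw [Prod.mk.injEq] at hab
      calc a = a.minFac ^ a.factorization a.minFac := ha.2.minFac_pow_factorization_eq.symm
        _ = b.minFac ^ b.factorization b.minFac := by rw [hab.2, hab.1]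
        _ = b := hb.2.minFac_pow_factorization_eq
  calc ∑ k ∈ S, VM k / k ≤ ∑ k ∈ S, (VM k * (k : ℝ) ^ (-(2 / 3) : ℝ)) * x ^ (-(1 / 3) : ℝ) := Finset.sum_le_sum h1
    _ = (∑ k ∈ S, VM k * (k : ℝ) ^ (-(2 / 3) : ℝ)) * x ^ (-(1 / 3) : ℝ) := (Finset.sum_mul _ _ _).symm
    _ ≤ max 1 (∑' x, F x) * x ^ (-(1 / 3) : ℝ) := mul_le_mul_of_nonneg_right (h2.trans (le_max_right _ _)) (Real.rpow_nonneg hx0.le _)

end Pool.Agent.CHE
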