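import Pool.Agent.helper82.CH.SpecE

/-!
# Project CH (MP_2e0e07_nt), stage 2, row SIE: a real zero is not too near `1`
-/

set_option autoImplicit false

open Complex

namespace Pool.Agent.CHE

theorem SIE_log4 : Real.log 4 ≤ 2 := by
  have h1 : Real.log 4 = 2 * Real.log 2 := by
    rw [show (4 : ℝ) = 2 ^ 2 by norm_num, Real.log_pow]
    norm_num
  have h2 := Real.log_two_lt_d9
  rw [h1]
  linarith

/-- the bound of `E χ` in the disc of radius `2` -/
theorem SIE_up {Y : Type} [CommGroup Y] [Fintype Y] {C l : ℝ} {b : Y → ℕ → ℝ} {E : (Y →* ℂˣ) → ℂ → ℂ} (h : Sys C l b E)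
    (χ : Y →* ℂˣ) (s : ℂ) (hs : ‖s‖ ≤ 2) : ‖E χ s‖ ≤ Real.exp (9 * C * l) := by
  refine (h.up χ s).trans (Real.exp_le_exp.2 ?_)
  have hC := h.C1
  have hl := h.l1
  have h1 : Real.log (2 + ‖s‖) ≤ Real.log 4 := Real.log_le_log (by positivity) (by linarith)
  have h2 : Real.log (2 + ‖s‖) ≤ 2 := h1.trans SIE_log4
  have h3 : l + Real.log (2 + ‖s‖) ≤ 3 * l := by linarith
  have h4 : C * (1 + ‖s‖) ≤ C * 3 := mul_le_mul_of_nonneg_left (by linarith) (by linarith)
  have h0 : 0 ≤ C * (1 + ‖s‖) := by positivity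
  calc C * (1 + ‖s‖) * (l + Real.log (2 + ‖s‖)) ≤ C * (1 + ‖s‖) * (3 * l) := mul_le_mul_of_nonneg_left h3 h0
    _ ≤ C * 3 * (3 * l) := mul_le_mul_of_nonneg_right h4 (by linarith)
    _ = 9 * C * l := by ring

theorem SIE : SIE_stmt := by
  intro Y _ _ C l b E h χ β hβ
  have hC := h.C1
  have hl := h.l1
  have hCl : 1 ≤ C * l := by nlinarith
  have hβ1 : β ≤ 1 := by
    by_contra hlt
    exact h.ne χ (β : ℂ) (by rw [ofReal_re]; linarith) hβ
  by_cases hβ2 : β < 1 / 2
  · have h1 : Real.exp (-(20 * C * l)) ≤ Real.exp (-1) := Real.exp_le_exp.2 (by nlinarith)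
    have h2 : Real.exp (-1) ≤ 1 / 2 := by
      rw [Real.exp_neg]
      have h3 : (2 : ℝ) ≤ Real.exp 1 := by
        have := Real.add_one_le_exp (1 : ℝ)
        linarith
      rw [inv_le_comm₀ (Real.exp_pos _) (by norm_num)]
      norm_num
      exact h3
    linarith
  · rw [not_lt] at hβ2
    -- the derivative on `[β, 1]`
    have hder : ∀ z ∈ segment ℝ (β : ℂ) 1, ‖deriv (E χ) z‖ ≤ Real.exp (9 * C * l) := by
      intro z hz
      have hz1 : ‖z‖ ≤ 1 := by
        have hconv : Convex ℝ (Metric.closedBall (0 : ℂ) 1) := convex_closedBall _ _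
        have hb : (β : ℂ) ∈ Metric.closedBall (0 : ℂ) 1 := by
          rw [mem_closedBall_zero_iff, norm_real, Real.norm_eq_abs, abs_of_nonneg (by linarith)]
          exact hβ1
        have h1 : (1 : ℂ) ∈ Metric.closedBall (0 : ℂ) 1 := by
          rw [mem_closedBall_zero_iff, norm_one]
        exact mem_closedBall_zero_iff.1 (hconv.segment_subset hb h1 hz)
      have h2 := norm_deriv_le_of_forall_mem_sphere_norm_le (c := z) (R := 1) (C := Real.exp (9 * C * l)) (f := E χ) one_pos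
        (h.diff χ).diffContOnCl (fun w hw => by
          refine SIE_up h χ w ?_
          rw [mem_sphere_iff_norm] at hw
          have h3 : ‖w‖ ≤ ‖w - z‖ + ‖z‖ := by
            have := norm_add_le (w - z) z
            rwa [sub_add_cancel] at this
          linarith)
      rwa [div_one] at h2
    have h1 : ‖E χ 1 - E χ (β : ℂ)‖ ≤ Real.exp (9 * C * l) * ‖(1 : ℂ) - β‖ :=
      Convex.norm_image_sub_le_of_norm_deriv_le (𝕜 := ℂ) (s := segment ℝ (β : ℂ) 1) (fun z _ => (h.diff χ).differentiableAt) hder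
        (convex_segment _ _) (left_mem_segment ℝ _ _) (right_mem_segment ℝ _ _)
    rw [hβ, sub_zero] at h1
    have h2 : ‖(1 : ℂ) - β‖ = 1 - β := by
      rw [← ofReal_one, ← ofReal_sub, norm_real, Real.norm_eq_abs, abs_of_nonneg (by linarith)]
    rw [h2] at h1
    have h3 := (h.one χ).trans h1
    have h4 : Real.exp (-(20 * C * l)) * Real.exp (9 * C * l) ≤ Real.exp (-(C * l)) := by
      rw [← Real.exp_add]
      exact Real.exp_le_exp.2 (by nlinarith)
    have h5 : 0 < Real.exp (9 * C * l) := Real.exp_pos _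
    nlinarith

end Pool.Agent.CHE
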