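import Pool.Agent.helper82.CH.SpecE

/-!
# Project CH (MP_2e0e07_nt), stage 2, row TPS: power sums (Fejér kernel, Borel-Carathéodory)
-/

set_option autoImplicit false

open Complex

namespace Pool.Agent.CHE

/-- Fejér's polynomial -/
noncomputable def TPS_P (n : ℕ) (z : ℂ) : ℂ := ∑ k ∈ Finset.range n, ((1 - (k : ℝ) / n : ℝ) : ℂ) * z ^ k

theorem TPS_re (n : ℕ) (z : ℂ) : (TPS_P n z).re = ∑ k ∈ Finset.range n, (1 - (k : ℝ) / n) * (z ^ k).re := by
  rw [TPS_P, re_sum]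
  refine Finset.sum_congr rfl (fun k _ => ?_)
  rw [re_ofReal_mul]

/-- Fejér's identity -/
theorem TPS_id (u : ℂ) (hu : ‖u‖ = 1) (n : ℕ) :
    2 * (∑ k ∈ Finset.range n, ((n : ℝ) - k) * (u ^ k).re) - n = Complex.normSq (∑ j ∈ Finset.range n, u ^ j) := by
  have hns : ∀ m : ℕ, Complex.normSq (u ^ m) = 1 := fun m => by
    rw [Complex.normSq_eq_norm_sq, norm_pow, hu]
    norm_num
  induction n with
  | zero => simp
  | succ n ih =>
    have h1 : Complex.normSq (∑ j ∈ Finset.range (n + 1), u ^ j) = Complex.normSq (∑ j ∈ Finset.range n, u ^ j) + 1 +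
        2 * ∑ k ∈ Finset.range n, (u ^ (k + 1)).re := by
      rw [Finset.sum_range_succ, Complex.normSq_add, hns]
      congr 1
      congr 1
      rw [Finset.sum_mul, re_sum, ← Finset.sum_range_reflect (fun k => (u ^ (k + 1)).re)]
      refine Finset.sum_congr rfl (fun j hj => ?_)
      rw [Finset.mem_range] at hj
      have h2 : n - 1 - j + 1 = n - j := by omega
      rw [h2]
      have h3 : u ^ n = u ^ j * u ^ (n - j) := by
        rw [← pow_add]
        congr 1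
        omega
      have h4 : u ^ j * (starRingEnd ℂ) (u ^ n) = (starRingEnd ℂ) (u ^ (n - j)) := by
        rw [h3, map_mul, ← mul_assoc, Complex.mul_conj, hns, ofReal_one, one_mul]
      rw [h4, conj_re]
    have h2 : ∑ k ∈ Finset.range (n + 1), (((n + 1 : ℕ) : ℝ) - k) * (u ^ k).re =
        (∑ k ∈ Finset.range n, ((n : ℝ) - k) * (u ^ k).re) + (1 + ∑ k ∈ Finset.range n, (u ^ (k + 1)).re) := by
      have h3 : ∑ k ∈ Finset.range (n + 1), (((n + 1 : ℕ) : ℝ) - k) * (u ^ k).re =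
          ∑ k ∈ Finset.range (n + 1), ((n : ℝ) - k) * (u ^ k).re + ∑ k ∈ Finset.range (n + 1), (u ^ k).re := by
        rw [← Finset.sum_add_distrib]
        refine Finset.sum_congr rfl (fun k _ => ?_)
        push_cast
        ring
      rw [h3, Finset.sum_range_succ (fun k => ((n : ℝ) - k) * (u ^ k).re), sub_self, zero_mul, add_zero, Finset.sum_range_succ' (fun k => (u ^ k).re)]
      rw [pow_zero, one_re, add_comm (∑ k ∈ Finset.range n, (u ^ (k + 1)).re) 1]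
    rw [h1, h2, ← ih]
    push_cast
    ring

theorem TPS_circle (n : ℕ) (hn : 1 ≤ n) (u : ℂ) (hu : ‖u‖ = 1) : 1 / 2 ≤ (TPS_P n u).re := by
  have hn0 : (0 : ℝ) < n := by exact_mod_cast hn
  have h1 := TPS_id u hu n
  have h2 : (n : ℝ) * (TPS_P n u).re = ∑ k ∈ Finset.range n, ((n : ℝ) - k) * (u ^ k).re := by
    rw [TPS_re, Finset.mul_sum]
    refine Finset.sum_congr rfl (fun k _ => ?_)
    field_simp
  have h3 := Complex.normSq_nonneg (∑ j ∈ Finset.range n, u ^ j)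
  rw [← h2] at h1
  by_contra hlt
  rw [not_le] at hlt
  nlinarith

theorem TPS_diff (n : ℕ) : Differentiable ℂ (TPS_P n) := by
  unfold TPS_P
  fun_prop

theorem TPS_disc (n : ℕ) (hn : 1 ≤ n) (z : ℂ) (hz : ‖z‖ ≤ 1) : 1 / 2 ≤ (TPS_P n z).re := by
  have h1 : ‖Complex.exp (-(TPS_P n z))‖ ≤ Real.exp (-(1 / 2)) := by
    refine Complex.norm_le_of_forall_mem_frontier_norm_le (f := fun z => Complex.exp (-(TPS_P n z))) (U := Metric.ball (0 : ℂ) 1) Metric.isBounded_ball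
      ((Complex.differentiable_exp.comp (TPS_diff n).neg).diffContOnCl) (fun w hw => ?_) ?_
    · rw [frontier_ball _ one_ne_zero, mem_sphere_zero_iff_norm] at hw
      rw [Complex.norm_exp, neg_re]
      exact Real.exp_le_exp.2 (neg_le_neg (TPS_circle n hn w hw))
    · rw [closure_ball _ one_ne_zero, mem_closedBall_zero_iff]
      exact hz
  rw [Complex.norm_exp, neg_re, Real.exp_le_exp] at h1
  linarith

theorem TPS_zero (n : ℕ) (hn : 1 ≤ n) : TPS_P n 0 = 1 := by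
  obtain ⟨m, rfl⟩ : ∃ m, n = m + 1 := ⟨n - 1, by omega⟩
  rw [TPS_P, Finset.sum_range_succ']
  simp

theorem TPS_har (n : ℕ) (hn : 1 ≤ n) (z : ℂ) (hz : ‖z‖ ≤ 1) : -(3 / 2 * ‖z‖) ≤ (TPS_P n z).re - 1 := by
  rcases le_total (1 / 3) ‖z‖ with h | h
  · have := TPS_disc n hn z hz
    linarith
  · have h1 : ‖1 - TPS_P n z‖ ≤ 2 * (1 / 2) * ‖z‖ / (1 - ‖z‖) := by
      refine Complex.borelCaratheodory_zero (f := fun w => 1 - TPS_P n w) (M := 1 / 2) (R := 1) (by norm_num)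
        ((differentiable_const (1 : ℂ)).sub (TPS_diff n)).differentiableOn (fun w hw => ?_) one_pos
        (mem_ball_zero_iff.2 (by linarith)) (by rw [TPS_zero n hn, sub_self])
      show (1 - TPS_P n w).re ≤ 1 / 2
      rw [sub_re, one_re]
      have := TPS_disc n hn w (mem_ball_zero_iff.1 hw).le
      linarith
    have h2 : 2 * (1 / 2) * ‖z‖ / (1 - ‖z‖) ≤ 3 / 2 * ‖z‖ := by
      rw [div_le_iff₀ (by linarith)]
      have := norm_nonneg z
      nlinarith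
    have h3 : (1 - TPS_P n z).re ≤ ‖1 - TPS_P n z‖ := Complex.re_le_norm _
    rw [sub_re, one_re] at h3
    linarith

/-- `cos a Re w` -/
theorem TPS_cos (u z : ℂ) (k : ℕ) : (u ^ k).re * (z ^ k).re = (((z * u) ^ k).re + ((z * (starRingEnd ℂ) u) ^ k).re) / 2 := by
  rw [mul_pow, mul_pow, ← map_pow, mul_re, mul_re, conj_re, conj_im]
  ring

/-- the weighted sum of `1 + cos` -/
theorem TPS_comb (n : ℕ) (u z : ℂ) :
    ∑ k ∈ Finset.range n, (1 - (k : ℝ) / n) * ((1 + (u ^ k).re) * (z ^ k).re) =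
      (TPS_P n z).re + ((TPS_P n (z * u)).re + (TPS_P n (z * (starRingEnd ℂ) u)).re) / 2 := by
  rw [TPS_re, TPS_re, TPS_re, ← Finset.sum_add_distrib, Finset.sum_div, ← Finset.sum_add_distrib]
  refine Finset.sum_congr rfl (fun k _ => ?_)
  rw [add_mul, one_mul, TPS_cos]
  ring

theorem TPS_one (n : ℕ) (hn : 1 ≤ n) : (TPS_P n 1).re = ((n : ℝ) + 1) / 2 := by
  have hn0 : (n : ℝ) ≠ 0 := by
    have : (0 : ℝ) < n := by exact_mod_cast hn
    exact this.ne'
  rw [TPS_re]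
  simp only [one_pow, one_re, mul_one]
  rw [Finset.sum_sub_distrib, ← Finset.sum_div]
  have h1 : ∑ k ∈ Finset.range n, (k : ℝ) = n * (n - 1) / 2 := by
    have h2 := Finset.sum_range_id_mul_two n
    have h3 : ((∑ i ∈ Finset.range n, i : ℕ) : ℝ) * 2 = n * ((n - 1 : ℕ) : ℝ) := by exact_mod_cast h2
    rw [Nat.cast_sub hn] at h3
    push_cast at h3
    linarith
  rw [h1, Finset.sum_const, Finset.card_range, nsmul_eq_mul, mul_one]
  field_simp
  ring

theorem TPS_le (n : ℕ) (hn : 1 ≤ n) (u : ℂ) (hu : ‖u‖ = 1) : (TPS_P n u).re ≤ ((n : ℝ) + 1) / 2 := by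
  rw [← TPS_one n hn, TPS_re, TPS_re]
  have hn0 : (0 : ℝ) < n := by exact_mod_cast hn
  refine Finset.sum_le_sum (fun k hk => ?_)
  rw [Finset.mem_range] at hk
  have h1 : (k : ℝ) / n ≤ 1 := by
    rw [div_le_one hn0]
    exact_mod_cast hk.le
  refine mul_le_mul_of_nonneg_left ?_ (by linarith)
  rw [one_pow, one_re]
  calc (u ^ k).re ≤ ‖u ^ k‖ := Complex.re_le_norm _
    _ = 1 := by rw [norm_pow, hu, one_pow]

/-- the normalised statement -/
theorem TPS_norm (N : ℕ) (z : Fin N → ℂ) (i₀ : Fin N) (M : ℝ) (h0 : ‖z i₀‖ = 1) (hz : ∀ i, ‖z i‖ ≤ 1) (hM : ∑ i, ‖z i‖ ≤ M) :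
    ∃ k : ℕ, 1 ≤ k ∧ (k : ℝ) ≤ 24 * M ∧ 1 / 8 ≤ (∑ i, z i ^ k).re := by
  have hrest : ∑ i ∈ Finset.univ.erase i₀, ‖z i‖ ≤ M - 1 := by
    have h1 := Finset.add_sum_erase Finset.univ (fun i => ‖z i‖) (Finset.mem_univ i₀)
    rw [h0] at h1
    linarith
  have hM1 : 1 ≤ M := by
    have h1 : 0 ≤ ∑ i ∈ Finset.univ.erase i₀, ‖z i‖ := Finset.sum_nonneg (fun i _ => norm_nonneg _)
    linarith
  obtain ⟨K, hK⟩ : ∃ K : ℕ, K = ⌊24 * M⌋₊ := ⟨_, rfl⟩
  have hK1 : (K : ℝ) ≤ 24 * M := by rw [hK]; exact Nat.floor_le (by linarith)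
  have hK2 : 24 * M < K + 1 := by rw [hK]; exact Nat.lt_floor_add_one _
  by_contra hcon
  push Not at hcon
  have hsm : ∀ k : ℕ, 1 ≤ k → k ≤ K → (∑ i, z i ^ k).re < 1 / 8 := fun k h1 h2 =>
    hcon k h1 (le_trans (by exact_mod_cast h2) hK1)
  obtain ⟨n, hn⟩ : ∃ n : ℕ, n = K + 1 := ⟨_, rfl⟩
  have hn1 : 1 ≤ n := by omega
  have hn0 : (0 : ℝ) < n := by exact_mod_cast hn1
  have hnK : (n : ℝ) = K + 1 := by rw [hn]; push_cast; ring
  obtain ⟨u, hu⟩ : ∃ u, u = z i₀ := ⟨_, rfl⟩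
  have hu1 : ‖u‖ = 1 := by rw [hu]; exact h0
  have hw : ∀ k ∈ Finset.range n, 0 ≤ 1 - (k : ℝ) / n := by
    intro k hk
    rw [Finset.mem_range] at hk
    have h1 : (k : ℝ) / n ≤ 1 := by
      rw [div_le_one hn0]
      exact_mod_cast hk.le
    linarith
  have hc : ∀ k : ℕ, 0 ≤ 1 + (u ^ k).re := by
    intro k
    have h1 : |(u ^ k).re| ≤ 1 := by
      calc |(u ^ k).re| ≤ ‖u ^ k‖ := Complex.abs_re_le_norm _
        _ = 1 := by rw [norm_pow, hu1, one_pow]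
    linarith [(abs_le.1 h1).1]
  -- the sum over `k ≥ 1`
  have hsplit : ∀ g : ℕ → ℝ, ∑ k ∈ Finset.range n, (1 - (k : ℝ) / n) * ((1 + (u ^ k).re) * g k) =
      2 * g 0 + ∑ k ∈ Finset.range K, (1 - ((k + 1 : ℕ) : ℝ) / n) * ((1 + (u ^ (k + 1)).re) * g (k + 1)) := by
    intro g
    rw [hn, Finset.sum_range_succ', add_comm]
    congr 1
    rw [pow_zero, one_re, Nat.cast_zero, zero_div]
    ring
  have hupper : ∑ k ∈ Finset.range K, (1 - ((k + 1 : ℕ) : ℝ) / n) * ((1 + (u ^ (k + 1)).re) * (∑ i, z i ^ (k + 1)).re) ≤ K / 8 := by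
    have h1 : ∑ k ∈ Finset.range K, (1 - ((k + 1 : ℕ) : ℝ) / n) * ((1 + (u ^ (k + 1)).re) * (∑ i, z i ^ (k + 1)).re) ≤
        ∑ k ∈ Finset.range K, (1 - ((k + 1 : ℕ) : ℝ) / n) * ((1 + (u ^ (k + 1)).re) * (1 / 8)) := by
      refine Finset.sum_le_sum (fun k hk => ?_)
      rw [Finset.mem_range] at hk
      refine mul_le_mul_of_nonneg_left ?_ (hw (k + 1) (Finset.mem_range.2 (by omega)))
      exact mul_le_mul_of_nonneg_left (hsm (k + 1) (by omega) (by omega)).le (hc _)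
    have h2 := hsplit (fun _ => 1 / 8)
    have h3 := TPS_comb n u 1
    simp only [one_pow, one_re, mul_one, one_mul] at h3
    have h4 : ∑ k ∈ Finset.range n, (1 - (k : ℝ) / n) * ((1 + (u ^ k).re) * (1 / 8)) = 1 / 8 * ∑ k ∈ Finset.range n, (1 - (k : ℝ) / n) * (1 + (u ^ k).re) := by
      rw [Finset.mul_sum]
      refine Finset.sum_congr rfl (fun k _ => ?_)
      ring
    have h5 := TPS_one n hn1
    have h6 := TPS_le n hn1 u hu1
    have h7 := TPS_le n hn1 ((starRingEnd ℂ) u) (by rw [RCLike.norm_conj]; exact hu1)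
    rw [h4, h3] at h2
    linarith
  have hlow : (n : ℝ) / 4 - 1 - 3 * (M - 1) ≤ ∑ k ∈ Finset.range K, (1 - ((k + 1 : ℕ) : ℝ) / n) * ((1 + (u ^ (k + 1)).re) * (∑ i, z i ^ (k + 1)).re) := by
    have hswap : ∑ k ∈ Finset.range K, (1 - ((k + 1 : ℕ) : ℝ) / n) * ((1 + (u ^ (k + 1)).re) * (∑ i, z i ^ (k + 1)).re) =
        ∑ i, ∑ k ∈ Finset.range K, (1 - ((k + 1 : ℕ) : ℝ) / n) * ((1 + (u ^ (k + 1)).re) * (z i ^ (k + 1)).re) := by
      rw [Finset.sum_comm]
      refine Finset.sum_congr rfl (fun k _ => ?_)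
      rw [re_sum, Finset.mul_sum, Finset.mul_sum]
    have hone : ∀ i, ∑ k ∈ Finset.range K, (1 - ((k + 1 : ℕ) : ℝ) / n) * ((1 + (u ^ (k + 1)).re) * (z i ^ (k + 1)).re) =
        ((TPS_P n (z i)).re - 1) + (((TPS_P n (z i * u)).re - 1) + ((TPS_P n (z i * (starRingEnd ℂ) u)).re - 1)) / 2 := by
      intro i
      have h1 := hsplit (fun k => (z i ^ k).re)
      have h2 := TPS_comb n u (z i)
      simp only [pow_zero, one_re, mul_one] at h1
      rw [h2] at h1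
      linarith
    rw [hswap, ← Finset.add_sum_erase Finset.univ _ (Finset.mem_univ i₀)]
    have h1 : (n : ℝ) / 4 - 1 ≤ ∑ k ∈ Finset.range K, (1 - ((k + 1 : ℕ) : ℝ) / n) * ((1 + (u ^ (k + 1)).re) * (z i₀ ^ (k + 1)).re) := by
      rw [hone i₀, ← hu]
      have h2 : u * (starRingEnd ℂ) u = 1 := by
        rw [Complex.mul_conj, Complex.normSq_eq_norm_sq, hu1]
        norm_num
      rw [h2, TPS_one n hn1]
      have h3 := TPS_circle n hn1 u hu1
      have h4 := TPS_circle n hn1 (u * u) (by rw [norm_mul, hu1, mul_one])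
      linarith
    have h2 : ∑ i ∈ Finset.univ.erase i₀, (-(3 * ‖z i‖)) ≤ ∑ i ∈ Finset.univ.erase i₀, ∑ k ∈ Finset.range K, (1 - ((k + 1 : ℕ) : ℝ) / n) * ((1 + (u ^ (k + 1)).re) * (z i ^ (k + 1)).re) := by
      refine Finset.sum_le_sum (fun i _ => ?_)
      rw [hone i]
      have h3 := TPS_har n hn1 (z i) (hz i)
      have h4 := TPS_har n hn1 (z i * u) (by rw [norm_mul, hu1, mul_one]; exact hz i)
      have h5 := TPS_har n hn1 (z i * (starRingEnd ℂ) u) (by rw [norm_mul, RCLike.norm_conj, hu1, mul_one]; exact hz i)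
      rw [norm_mul, hu1, mul_one] at h4
      rw [norm_mul, RCLike.norm_conj, hu1, mul_one] at h5
      linarith
    have h3 : ∑ i ∈ Finset.univ.erase i₀, (-(3 * ‖z i‖)) = -(3 * ∑ i ∈ Finset.univ.erase i₀, ‖z i‖) := by
      rw [Finset.mul_sum, Finset.sum_neg_distrib]
    rw [h3] at h2
    linarith
  have h9 := hlow.trans hupper
  rw [hnK] at h9
  linarith

theorem TPS : TPS_stmt := by
  intro N z i₀ M h0 hz hM
  have hr : 0 < ‖z i₀‖ := norm_pos_iff.2 h0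
  obtain ⟨k, h1, h2, h3⟩ := TPS_norm N (fun i => z i / (‖z i₀‖ : ℂ)) i₀ M
    (by rw [norm_div, norm_real, norm_norm, div_self hr.ne'])
    (fun i => by
      rw [norm_div, norm_real, norm_norm, div_le_one hr]
      exact hz i)
    (by
      have h4 : ∀ i, ‖z i / (‖z i₀‖ : ℂ)‖ = ‖z i‖ / ‖z i₀‖ := fun i => by rw [norm_div, norm_real, norm_norm]
      simp only [h4]
      rw [← Finset.sum_div, div_le_iff₀ hr]
      exact hM)
  refine ⟨k, h1, h2, ?_⟩
  have h4 : (∑ i, (z i / (‖z i₀‖ : ℂ)) ^ k).re = (∑ i, z i ^ k).re / ‖z i₀‖ ^ k := by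
    simp only [div_pow]
    rw [← Finset.sum_div, ← ofReal_pow, div_ofReal_re]
  rw [h4, le_div_iff₀ (pow_pos hr k)] at h3
  exact h3

end Pool.Agent.CHE
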