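import Pool.Agent.helper82.CH.SpecE

/-!
# Project CH (MP_2e0e07_nt), stage 2, row VMS: `∑ Λ(k) k^(-1-δ) ≤ K/δ`
-/

set_option autoImplicit false

open Complex

namespace Pool.Agent.CHE

open ArithmeticFunction ArithmeticFunction.vonMangoldt in
/-- the L-series of `Λ` minus `1/(s-1)` is bounded on `(1, 2]` -/
theorem VMS_bd : ∃ B : ℝ, 0 ≤ B ∧ ∀ δ : ℝ, 0 < δ → δ ≤ 1 →
    ‖LSeries (fun n => ((ArithmeticFunction.vonMangoldt n : ℝ) : ℂ)) ((1 + δ : ℝ) : ℂ) - 1 / (δ : ℂ)‖ ≤ B := by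
  have hu : IsUnit (1 : ZMod 1) := isUnit_one
  obtain ⟨G, hG⟩ : ∃ G : ℂ → ℂ, G = LFunctionResidueClassAux (q := 1) (1 : ZMod 1) := ⟨_, rfl⟩
  have hc : ContinuousOn G {s | 1 ≤ s.re} := by
    rw [hG]
    exact continuousOn_LFunctionResidueClassAux (1 : ZMod 1)
  have he : Set.EqOn G (fun s => LSeries (fun n => ((residueClass (1 : ZMod 1) n : ℝ) : ℂ)) s - ((Nat.totient 1 : ℕ) : ℂ)⁻¹ / (s - 1)) {s | 1 < s.re} := by
    rw [hG]
    exact eqOn_LFunctionResidueClassAux hu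
  have hK : IsCompact ((fun δ : ℝ => ((1 + δ : ℝ) : ℂ)) '' Set.Icc 0 1) := by
    refine isCompact_Icc.image ?_
    exact Complex.continuous_ofReal.comp (continuous_const.add continuous_id)
  have hKs : (fun δ : ℝ => ((1 + δ : ℝ) : ℂ)) '' Set.Icc 0 1 ⊆ {s | 1 ≤ s.re} := by
    rintro _ ⟨δ, hδ, rfl⟩
    show 1 ≤ ((1 + δ : ℝ) : ℂ).re
    rw [ofReal_re]
    linarith [hδ.1]
  obtain ⟨B, hB⟩ := hK.exists_bound_of_continuousOn (hc.mono hKs)
  refine ⟨max B 0, le_max_right _ _, fun δ h0 h1 => ?_⟩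
  have h2 := hB ((1 + δ : ℝ) : ℂ) ⟨δ, ⟨h0.le, h1⟩, rfl⟩
  have h3 := he (show ((1 + δ : ℝ) : ℂ) ∈ {s : ℂ | 1 < s.re} by
    show 1 < ((1 + δ : ℝ) : ℂ).re
    rw [ofReal_re]
    linarith)
  rw [h3] at h2
  refine le_trans (le_of_eq ?_) (h2.trans (le_max_left _ _))
  have h4 : (fun n => ((residueClass (1 : ZMod 1) n : ℝ) : ℂ)) = fun n => ((ArithmeticFunction.vonMangoldt n : ℝ) : ℂ) := by
    funext n
    congr 1
    have h5 : n ∈ {n : ℕ | (n : ZMod 1) = 1} := Subsingleton.elim _ _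
    exact Set.indicator_of_mem h5 _
  rw [h4]
  congr 2
  rw [Nat.totient_one]
  push_cast
  rw [inv_one]
  congr 1
  ring

theorem VMS_term (s : ℝ) (n : ℕ) : LSeries.term (fun n => ((ArithmeticFunction.vonMangoldt n : ℝ) : ℂ)) (s : ℂ) n = ((VM n * (n : ℝ) ^ (-s) : ℝ) : ℂ) := by
  rcases Nat.eq_zero_or_pos n with rfl | hn
  · rw [LSeries.term_zero, VM]
    simp
  · rw [LSeries.term_of_ne_zero hn.ne', VM, Real.rpow_neg (Nat.cast_nonneg _), ofReal_mul, ofReal_inv, Complex.ofReal_cpow (Nat.cast_nonneg _), div_eq_mul_inv,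
      ofReal_natCast]

theorem VMS : VMS_stmt := by
  obtain ⟨B, hB0, hB⟩ := VMS_bd
  refine ⟨1 + B, by linarith, fun δ h0 h1 => ?_⟩
  have hs : LSeriesSummable (fun n => ((ArithmeticFunction.vonMangoldt n : ℝ) : ℂ)) ((1 + δ : ℝ) : ℂ) :=
    ArithmeticFunction.LSeriesSummable_vonMangoldt (by
      rw [ofReal_re]
      linarith)
  have h2 : Summable (fun n : ℕ => ((VM n * (n : ℝ) ^ (-(1 + δ)) : ℝ) : ℂ)) := by
    have h3 : Summable (LSeries.term (fun n => ((ArithmeticFunction.vonMangoldt n : ℝ) : ℂ)) ((1 + δ : ℝ) : ℂ)) := hs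
    exact h3.congr (fun n => VMS_term _ _)
  have h3 : Summable (fun n : ℕ => VM n * (n : ℝ) ^ (-(1 + δ))) := Complex.summable_ofReal.1 h2
  refine ⟨h3, ?_⟩
  have h4 : ((∑' n : ℕ, VM n * (n : ℝ) ^ (-(1 + δ)) : ℝ) : ℂ) = LSeries (fun n => ((ArithmeticFunction.vonMangoldt n : ℝ) : ℂ)) ((1 + δ : ℝ) : ℂ) := by
    rw [Complex.ofReal_tsum, LSeries]
    exact tsum_congr (fun n => (VMS_term _ _).symm)
  have h5 := hB δ h0 h1
  rw [← h4, ← ofReal_one, ← ofReal_div, ← ofReal_sub, norm_real, Real.norm_eq_abs] at h5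
  have h6 := (abs_le.1 h5).2
  rw [le_div_iff₀ h0]
  have h7 : (∑' n : ℕ, VM n * (n : ℝ) ^ (-(1 + δ))) ≤ 1 / δ + B := by linarith
  calc (∑' n : ℕ, VM n * (n : ℝ) ^ (-(1 + δ))) * δ ≤ (1 / δ + B) * δ := mul_le_mul_of_nonneg_right h7 h0.le
    _ = 1 + B * δ := by field_simp
    _ ≤ 1 + B := by nlinarith

end Pool.Agent.CHE
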